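import Pool.Agent.H11.TotDom

set_option autoImplicit false

namespace Pool.Agent.Results.MP_0479e2_co.Extremal

open Finset

/-- `G(x)`: the complete bipartite graph with sides of sizes `⌈x/2 - 1⌉ = (x-1)/2` and
`⌊x/2 + 1⌋ = x/2 + 1`, minus the maximum matching `i ↔ i`. -/
def Gx (x : ℕ) : SimpleGraph (Fin ((x - 1) / 2) ⊕ Fin (x / 2 + 1)) where
  Adj u v := ∃ (i : Fin ((x - 1) / 2)) (l : Fin (x / 2 + 1)), (i : ℕ) ≠ l ∧
    ((u = .inl i ∧ v = .inr l) ∨ (u = .inr l ∧ v = .inl i))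
  symm := ⟨fun _ _ ⟨i, l, h, h'⟩ => ⟨i, l, h, h'.symm.imp And.symm And.symm⟩⟩
  loopless := ⟨by rintro _ ⟨i, l, -, ⟨rfl, h⟩ | ⟨rfl, h⟩⟩ <;> cases h⟩

/-- `j` disjoint copies of `K₂`. -/
def jK2 (j : ℕ) : SimpleGraph (Fin j × Bool) where
  Adj u v := u.1 = v.1 ∧ u.2 ≠ v.2
  symm := ⟨fun _ _ h => ⟨h.1.symm, h.2.symm⟩⟩
  loopless := ⟨fun _ h => h.2 rfl⟩

/-- The disjoint union `G(n - γ + 3) ∪ ((γ - 3)/2) K₂`. -/
def Ext (n γ : ℕ) :
    SimpleGraph ((Fin ((n - γ + 3 - 1) / 2) ⊕ Fin ((n - γ + 3) / 2 + 1)) ⊕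
      (Fin ((γ - 3) / 2) × Bool)) :=
  (Gx (n - γ + 3)).sum (jK2 ((γ - 3) / 2))

/-- `G` is a bipartite graph without isolated vertices, of order `n` and total domination
number `γ`. -/
def Adm {V : Type} (G : SimpleGraph V) (n γ : ℕ) : Prop :=
  Nat.card V = n ∧ G.IsBipartite ∧ (∀ v, ∃ w, G.Adj v w) ∧
    IsLeast {k : ℕ | ∃ S : Finset V, S.card = k ∧ ∀ v, ∃ w ∈ S, G.Adj v w} γ

@[simp] lemma Gx_lr (x : ℕ) (i : Fin ((x - 1) / 2)) (l : Fin (x / 2 + 1)) :
    (Gx x).Adj (.inl i) (.inr l) ↔ (i : ℕ) ≠ l := by simp [Gx]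

@[simp] lemma Gx_rl (x : ℕ) (i : Fin ((x - 1) / 2)) (l : Fin (x / 2 + 1)) :
    (Gx x).Adj (.inr l) (.inl i) ↔ (i : ℕ) ≠ l := by simp [Gx]

@[simp] lemma Gx_ll (x : ℕ) (i i' : Fin ((x - 1) / 2)) : ¬ (Gx x).Adj (.inl i) (.inl i') := by
  simp [Gx]

@[simp] lemma Gx_rr (x : ℕ) (l l' : Fin (x / 2 + 1)) : ¬ (Gx x).Adj (.inr l) (.inr l') := by
  simp [Gx]

@[simp] lemma jK2_adj (j : ℕ) (u v : Fin j × Bool) :
    (jK2 j).Adj u v ↔ u.1 = v.1 ∧ u.2 ≠ v.2 := Iff.rfl

def side (x j : ℕ) : (Fin ((x - 1) / 2) ⊕ Fin (x / 2 + 1)) ⊕ (Fin j × Bool) → Bool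
  | .inl (.inl _) => true
  | .inl (.inr _) => false
  | .inr p => p.2

lemma side_ne (x j : ℕ) (u v : (Fin ((x - 1) / 2) ⊕ Fin (x / 2 + 1)) ⊕ (Fin j × Bool))
    (h : ((Gx x).sum (jK2 j)).Adj u v) : side x j u ≠ side x j v := by
  rcases u with (u | u) | u <;> rcases v with (v | v) | v <;> simp_all [side]

lemma main (x j : ℕ) (hx : 5 ≤ x) :
    Adm ((Gx x).sum (jK2 j)) (x + 2 * j) (2 * j + 3) ∧
      ((Gx x).sum (jK2 j)).edgeSet.ncard = (x - 1) / 2 * (x / 2) + j := by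
  classical
  let a0 : Fin ((x - 1) / 2) := ⟨0, by omega⟩
  let a1 : Fin ((x - 1) / 2) := ⟨1, by omega⟩
  let b : Fin (x / 2 + 1) := ⟨x / 2, by omega⟩
  have hcard : ∀ (i i' : Fin ((x - 1) / 2)) (l : Fin (x / 2 + 1)), i ≠ i' →
      (insert (.inl (.inl i)) (insert (.inl (.inl i')) (insert (.inl (.inr l))
        (univ.map Function.Embedding.inr))) :
        Finset ((Fin ((x - 1) / 2) ⊕ Fin (x / 2 + 1)) ⊕ (Fin j × Bool))).card = 2 * j + 3 := by
    intro i i' l h
    rw [card_insert_of_notMem (by simp [h]), card_insert_of_notMem (by simp),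
      card_insert_of_notMem (by simp)]
    simp [mul_comm]
  have hdom : ∀ v, ∃ w ∈ (insert (.inl (.inl a0)) (insert (.inl (.inl a1)) (insert (.inl (.inr b))
        (univ.map Function.Embedding.inr))) :
        Finset ((Fin ((x - 1) / 2) ⊕ Fin (x / 2 + 1)) ⊕ (Fin j × Bool))),
        ((Gx x).sum (jK2 j)).Adj v w := by
    rintro ((i | l) | p)
    · exact ⟨.inl (.inr b), by simp, by simp [b]; omega⟩
    · by_cases h : (l : ℕ) = 0
      · exact ⟨.inl (.inl a1), by simp, by simp [a1]; omega⟩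
      · exact ⟨.inl (.inl a0), by simp, by simp [a0]; omega⟩
    · exact ⟨.inr (p.1, !p.2), by simp, by simp⟩
  refine ⟨⟨by simp; omega, ?_, fun v => (hdom v).imp fun w h => h.2,
    ⟨_, hcard a0 a1 b (by simp [a0, a1]), hdom⟩, ?_⟩, ?_⟩
  · have := (SimpleGraph.Coloring.mk (side x j) fun {u v} h => side_ne x j u v h).colorable
    simpa using this
  · rintro k ⟨S, rfl, hS⟩
    obtain ⟨l, hl⟩ : ∃ l, Sum.inl (Sum.inr l) ∈ S := by
      obtain ⟨(i | l) | p, hw, h⟩ := hS (.inl (.inl a0))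
      · simp at h
      · exact ⟨l, hw⟩
      · simp at h
    have hi : ∀ l : Fin (x / 2 + 1), ∃ i, Sum.inl (Sum.inl i) ∈ S ∧ (i : ℕ) ≠ l := fun l => by
      obtain ⟨(i | l) | p, hw, h⟩ := hS (.inl (.inr l))
      · exact ⟨i, hw, by simpa using h⟩
      · simp at h
      · simp at h
    obtain ⟨i, hi1, -⟩ := hi b
    obtain ⟨i', hi2, hne⟩ := hi ⟨i, by omega⟩
    rw [← hcard i i' l fun e => hne (by simp [e])]
    refine card_le_card ?_
    simp only [insert_subset_iff, hi1, hi2, hl, true_and]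
    intro w hw
    obtain ⟨p, -, rfl⟩ := mem_map.1 hw
    obtain ⟨w | q, hq, h⟩ := hS (.inr (p.1, !p.2))
    · simp at h
    · have : q = p := by
        simp only [SimpleGraph.sum_adj, jK2_adj] at h
        refine Prod.ext h.1.symm ?_
        have := h.2
        revert this
        cases q.2 <;> cases p.2 <;> simp
      exact this ▸ hq
  · have hB : ((Gx x).sum (jK2 j)).IsBipartiteWith
        (univ.filter fun v => side x j v = true : Finset _)
        (univ.filter fun v => ¬ side x j v = true : Finset _) := by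
      refine ⟨disjoint_coe.2 (disjoint_filter_filter_not _ _ _), fun v w h => ?_⟩
      have := side_ne x j v w h
      simp only [coe_filter, mem_univ, true_and, Set.mem_ofPred_eq]
      revert this
      cases side x j v <;> cases side x j w <;> simp
    rw [← SimpleGraph.coe_edgeFinset, Set.ncard_coe_finset,
      ← SimpleGraph.isBipartiteWith_sum_degrees_eq_card_edges hB, sum_filter]
    have d1 : ∀ (i : Fin ((x - 1) / 2))
        (_ : Fintype (((Gx x).sum (jK2 j)).neighborSet (.inl (.inl i)))),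
        ((Gx x).sum (jK2 j)).degree (.inl (.inl i)) = x / 2 := by
      intro i _
      have : ((Gx x).sum (jK2 j)).neighborFinset (.inl (.inl i)) =
          (univ.erase (⟨i, by omega⟩ : Fin (x / 2 + 1))).map
            (Function.Embedding.inr.trans Function.Embedding.inl) := by
        ext ((i' | l) | p) <;> simp [Fin.ext_iff, eq_comm]
      rw [← SimpleGraph.card_neighborFinset_eq_degree, this]
      simp
    have d2 : ∀ (p : Fin j × Bool) (_ : Fintype (((Gx x).sum (jK2 j)).neighborSet (.inr p))),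
        ((Gx x).sum (jK2 j)).degree (.inr p) = 1 := by
      intro p _
      have : ((Gx x).sum (jK2 j)).neighborFinset (.inr p) = {.inr (p.1, !p.2)} := by
        ext (w | q)
        · simp
        · rcases p with ⟨p, _ | _⟩ <;> rcases q with ⟨q, _ | _⟩ <;> simp [eq_comm]
      rw [← SimpleGraph.card_neighborFinset_eq_degree, this]
      simp
    simp only [d1, d2, Fintype.sum_sum_type, Fintype.sum_prod_type, side]
    simp

/-- A second extremal graph for `n = 6`, `γ = 3`. -/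
def H : SimpleGraph (Fin 6) :=
  SimpleGraph.fromEdgeSet {s(0, 4), s(0, 5), s(1, 4), s(1, 5), s(2, 3), s(2, 5)}

instance : DecidableRel H.Adj := fun a b => by
  unfold H
  rw [SimpleGraph.fromEdgeSet_adj]
  infer_instance

lemma cover : ∃ u v, ∀ a b, (Ext 6 3).Adj a b → a = u ∨ a = v ∨ b = u ∨ b = v := by
  refine ⟨.inl (.inl ⟨0, by norm_num⟩), .inl (.inl ⟨1, by norm_num⟩), ?_⟩
  have h0 : ∀ a : Fin ((6 - 3 + 3 - 1) / 2), a = ⟨0, by norm_num⟩ ∨ a = ⟨1, by norm_num⟩ := by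
    decide
  rintro ((a | a) | a) ((b | b) | b) h
  · exact absurd h (Gx_ll (6 - 3 + 3) a b)
  · rcases h0 a with rfl | rfl <;> simp
  · exact absurd b.1.2 (by norm_num)
  · rcases h0 b with rfl | rfl <;> simp
  · exact absurd h (Gx_rr (6 - 3 + 3) a b)
  · exact absurd b.1.2 (by norm_num)
  all_goals exact absurd a.1.2 (by norm_num)

theorem aux :
    (∀ n γ : ℕ, Odd γ → 3 ≤ γ → γ + 2 ≤ n →
      Adm (Ext n γ) n γ ∧
      ((Ext n γ).edgeSet.ncard : ℤ) =
        ⌊((((n : ℚ) - γ) * ((n : ℚ) - γ + 4) + 2 * γ - 2) / 4 : ℚ)⌋ ∧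
      ∀ (V : Type) [Finite V] (G : SimpleGraph V), Adm G n γ →
        G.edgeSet.ncard ≤ (Ext n γ).edgeSet.ncard) ∧
    ∃ K : SimpleGraph (Fin 6), Adm K 6 3 ∧ K.edgeSet.ncard = (Ext 6 3).edgeSet.ncard ∧
      IsEmpty (K ≃g Ext 6 3) := by
  constructor
  · intro n γ hodd h3 hn
    obtain ⟨h1, h2⟩ := main (n - γ + 3) ((γ - 3) / 2) (by omega)
    obtain ⟨j, hj⟩ := hodd
    have e1 : n - γ + 3 + 2 * ((γ - 3) / 2) = n := by omega
    have e2 : 2 * ((γ - 3) / 2) + 3 = γ := by omega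
    rw [e1, e2] at h1
    have h2' : (Ext n γ).edgeSet.ncard =
      (n - γ + 3 - 1) / 2 * ((n - γ + 3) / 2) + (γ - 3) / 2 := h2
    obtain ⟨d, rfl⟩ : ∃ d, n = γ + d := ⟨n - γ, by omega⟩
    obtain ⟨i, rfl⟩ : ∃ i, j = i + 1 := ⟨j - 1, by omega⟩
    subst hj
    have key : 4 * ((Ext (2 * (i + 1) + 1 + d) (2 * (i + 1) + 1)).edgeSet.ncard : ℤ) ≤
        (d : ℤ) * (d + 4) + 4 * i + 4 ∧ (d : ℤ) * (d + 4) + 4 * i + 4 <
        4 * ((Ext (2 * (i + 1) + 1 + d) (2 * (i + 1) + 1)).edgeSet.ncard : ℤ) + 4 := by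
      rw [h2', show (2 * (i + 1) + 1 - 3) / 2 = i by omega, Nat.add_sub_cancel_left]
      obtain ⟨c, rfl | rfl⟩ := Nat.even_or_odd' d
      · rw [show (2 * c + 3 - 1) / 2 = c + 1 by omega, show (2 * c + 3) / 2 = c + 1 by omega]
        push_cast
        constructor <;> nlinarith
      · rw [show (2 * c + 1 + 3 - 1) / 2 = c + 1 by omega,
          show (2 * c + 1 + 3) / 2 = c + 2 by omega]
        push_cast
        constructor <;> nlinarith
    refine ⟨h1, ?_, ?_⟩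
    · symm
      rw [Int.floor_eq_iff, le_div_iff₀ (by norm_num), div_lt_iff₀ (by norm_num)]
      obtain ⟨k1, k2⟩ := key
      generalize (Ext (2 * (i + 1) + 1 + d) (2 * (i + 1) + 1)).edgeSet.ncard = m at k1 k2
      have k3 : (4 * (m : ℚ)) ≤ (d : ℚ) * (d + 4) + 4 * i + 4 := by exact_mod_cast k1
      have k4 : (d : ℚ) * (d + 4) + 4 * i + 4 < 4 * (m : ℚ) + 4 := by exact_mod_cast k2
      push_cast
      constructor <;> nlinarith
    · intro V _ G ⟨a1, a2, a3, a4⟩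
      classical
      have := Fintype.ofFinite V
      have hb := Pool.Agent.H11.TotDom.bound G a2 a3 _ a4 ⟨i + 1, rfl⟩
      rw [← Nat.card_eq_fintype_card, a1] at hb
      rw [← G.coe_edgeFinset, Set.ncard_coe_finset]
      push_cast at hb
      have k2 := key.2
      generalize (Ext (2 * (i + 1) + 1 + d) (2 * (i + 1) + 1)).edgeSet.ncard = m at k2 ⊢
      generalize G.edgeFinset.card = m' at hb ⊢
      have k3 : 4 * (m' : ℤ) < 4 * m + 4 := by nlinarith
      omega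
  · refine ⟨H, ⟨by simp, ?_, by decide, ⟨{0, 2, 5}, by decide, by decide⟩, ?_⟩, ?_, ⟨fun e => ?_⟩⟩
    · have := (SimpleGraph.Coloring.mk (G := H) (fun v : Fin 6 => decide (v < 3))
        (by decide)).colorable
      simpa using this
    · rintro k ⟨S, rfl, hS⟩
      revert S
      decide +kernel
    · have h2 : (Ext 6 3).edgeSet.ncard = _ := (main (6 - 3 + 3) ((3 - 3) / 2) (by norm_num)).2
      rw [h2, ← H.coe_edgeFinset, Set.ncard_coe_finset]
      decide +kernel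
    · obtain ⟨u, v, h⟩ := cover
      have h1 : ∃ u v : Fin 6, ∀ a b, H.Adj a b → a = u ∨ a = v ∨ b = u ∨ b = v :=
        ⟨e.symm u, e.symm v, fun a b hab => by
          simpa only [RelIso.eq_symm_apply] using h (e a) (e b) (e.map_adj_iff.2 hab)⟩
      revert h1
      decide +kernel

lemma big (V : Type) [Finite V] (G : SimpleGraph V) (n γ : ℕ) (h : Adm G n γ) (hodd : Odd γ) :
    γ + 2 ≤ n := by
  classical
  have := Fintype.ofFinite V
  obtain ⟨a1, a2, a3, a4⟩ := h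
  have hb := Pool.Agent.H11.TotDom.bound G a2 a3 _ a4 hodd
  obtain ⟨⟨S, rfl, hS⟩, -⟩ := a4
  rw [Nat.card_eq_fintype_card] at a1
  have h1 := G.sum_degrees_eq_twice_card_edges
  have h2 : ∀ v, 1 ≤ G.degree v := fun v => (G.degree_pos_iff_exists_adj v).2 (a3 v)
  have h3 : S.card ≤ Fintype.card V := card_le_univ S
  have h4 : Fintype.card V ≤ ∑ v, G.degree v := by
    simpa using sum_le_sum (s := univ) fun v _ => h2 v
  by_contra hc
  rcases (show Fintype.card V = S.card ∨ Fintype.card V = S.card + 1 by omega) with e | e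
  · rw [e] at hb
    simp only [sub_self, zero_mul] at hb
    omega
  · rw [e] at hb
    push_cast at hb
    have h5 : 4 * (G.edgeFinset.card : ℤ) ≤ 2 * S.card + 3 := by linarith
    obtain ⟨v, hv⟩ : ∃ v, v ∉ S := by
      by_contra hh
      push Not at hh
      have := card_le_card (fun v _ => hh v : univ ⊆ S)
      rw [card_univ] at this
      omega
    obtain ⟨w, hw⟩ := a3 v
    obtain ⟨u, hu, hwu⟩ := hS w
    have h6 : 1 < G.degree w := by
      rw [← G.card_neighborFinset_eq_degree]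
      exact one_lt_card.2 ⟨v, by simpa using hw.symm, u, by simpa using hwu,
        fun e => hv (e ▸ hu)⟩
    have h7 : ∑ _v : V, 1 < ∑ v, G.degree v :=
      sum_lt_sum (fun v _ => h2 v) ⟨w, mem_univ w, h6⟩
    simp only [sum_const, card_univ, smul_eq_mul, mul_one] at h7
    omega

theorem result :
    (∀ (V : Type) [Finite V] (G : SimpleGraph V) (n γ : ℕ), Adm G n γ → Odd γ → 3 ≤ γ →
      Adm (Ext n γ) n γ ∧
      ((Ext n γ).edgeSet.ncard : ℤ) =
        ⌊((((n : ℚ) - γ) * ((n : ℚ) - γ + 4) + 2 * γ - 2) / 4 : ℚ)⌋ ∧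
      G.edgeSet.ncard ≤ (Ext n γ).edgeSet.ncard) ∧
    ∃ K : SimpleGraph (Fin 6), Adm K 6 3 ∧ K.edgeSet.ncard = (Ext 6 3).edgeSet.ncard ∧
      IsEmpty (K ≃g Ext 6 3) := by
  refine ⟨fun V _ G n γ h hodd h3 => ?_, aux.2⟩
  obtain ⟨b1, b2, b3⟩ := aux.1 n γ hodd h3 (big V G n γ h hodd)
  exact ⟨b1, b2, b3 V G h⟩

end Pool.Agent.Results.MP_0479e2_co.Extremal
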