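import Pool.Agent.H11.TotDom

set_option autoImplicit false

namespace Pool.Agent.Results.MP_0479e2_co.OddBound

/-- A finite bipartite graph without isolated vertices, of order `n`, size `m` and odd total
domination number `γ`, has `m ≤ ⌊((n - γ)(n - γ + 4) + 2γ - 2) / 4⌋`. -/
theorem result (V : Type) [Fintype V] (G : SimpleGraph V) (hG : G.IsBipartite)
    (hiso : ∀ v, ∃ w, G.Adj v w) (γ : ℕ)
    (hγ : IsLeast {k : ℕ | ∃ S : Finset V, S.card = k ∧ ∀ v, ∃ w ∈ S, G.Adj v w} γ)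
    (hodd : Odd γ) :
    (G.edgeSet.ncard : ℤ) ≤ ⌊((((Fintype.card V : ℚ) - γ) * ((Fintype.card V : ℚ) - γ + 4) +
      2 * γ - 2) / 4 : ℚ)⌋ := by
  classical
  have h := Pool.Agent.H11.TotDom.bound G hG hiso γ hγ hodd
  rw [← G.coe_edgeFinset, Set.ncard_coe_finset, Int.le_floor, le_div_iff₀ (by norm_num)]
  have h2 : ((4 * (G.edgeFinset.card : ℤ) : ℤ) : ℚ) ≤ ((((Fintype.card V : ℤ) - γ) *
      ((Fintype.card V : ℤ) - γ + 4) + 2 * γ - 2 : ℤ) : ℚ) := by exact_mod_cast h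
  push_cast at h2 ⊢
  linarith

end Pool.Agent.Results.MP_0479e2_co.OddBound
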